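import Mathlib

/-!
# Algebra of Gaussian integration by parts for linear families
-/

set_option autoImplicit false

namespace Pool.Agent.TH722.K6

open Finset

variable {R : Type} [CommRing R] [Algebra ℝ R] (E : R →ₗ[ℝ] ℝ)

section single

variable (D : Derivation ℝ R R) (x v : R)

theorem single_moments (h1 : ∀ P, E (x * P) = E (D P)) (h2 : D x = v) (h3 : D v = 0) :
    E (x ^ 2) = E v ∧ E (x ^ 3) = 0 ∧ E (x ^ 4) = 3 * E (v ^ 2) ∧ E (x ^ 6) = 15 * E (v ^ 3) := by
  have d2 : D (v ^ 2) = 0 := by rw [Derivation.leibniz_pow, h3]; simp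
  have e1 : ∀ (k : ℕ) (w : R), D w = 0 → E (w * x ^ (k + 2)) = (k + 1) * E (w * v * x ^ k) := by
    intro k w hw
    have : w * x ^ (k + 2) = x * (w * x ^ (k + 1)) := by ring
    rw [this, h1, Derivation.leibniz, hw, Derivation.leibniz_pow, h2]
    have e : w • ((k + 1) • x ^ (k + 1 - 1) • v) + x ^ (k + 1) • (0 : R)
        = ((k + 1 : ℕ) : ℝ) • (w * v * x ^ k) := by
      rw [Nat.add_sub_cancel, smul_zero, add_zero, Nat.cast_smul_eq_nsmul]
      simp only [smul_eq_mul, mul_smul_comm]
      congr 1; ring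
    rw [e, map_smul, smul_eq_mul]
    push_cast; ring
  have e0 : ∀ w : R, D w = 0 → E (w * x) = 0 := by
    intro w hw
    rw [mul_comm, h1, hw, map_zero]
  have a1 := e1 0 1 (by simp)
  have a2 := e1 1 1 (by simp)
  have a3 := e0 v h3
  have a4 := e1 2 1 (by simp)
  have a5 := e1 0 v h3
  have a6 := e1 4 1 (by simp)
  have a7 := e1 2 v h3
  have a8 := e1 0 (v ^ 2) d2
  have s1 : E (v * v * x ^ 2) = E (v ^ 2 * x ^ 2) := by congr 1; ring
  have s2 : E (v ^ 2 * v * x ^ 0) = E (v ^ 3) := by congr 1; ring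
  have s3 : E (v * v * x ^ 0) = E (v ^ 2) := by congr 1; ring
  simp only [one_mul, pow_one, pow_zero, mul_one, Nat.cast_zero, Nat.cast_one, zero_add,
    Nat.cast_ofNat] at a1 a2 a4 a5 a6 a7 a8 s1 s2 s3
  refine ⟨?_, ?_, ?_, ?_⟩
  · linarith
  · rw [a2, a3]; ring
  · rw [a4, a5, s3]; ring
  · rw [a6, a7, s1, a8, s2]; ring

end single

section family

variable {α : Type} [Fintype α] (D : α → Derivation ℝ R R) (l : α → R) (c : α → α → R)

theorem fam_step (h1 : ∀ s P, E (l s * P) = E (D s P)) (h2 : ∀ s t, D s (l t) = c s t) (P : R) :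
    E ((∑ s, l s ^ 2) * P) = E ((∑ s, c s s) * P) + ∑ s, E (l s * D s P) := by
  have e1 : (∑ s, l s ^ 2) * P = ∑ s, l s * (l s * P) := by
    rw [Finset.sum_mul]; exact Finset.sum_congr rfl fun s _ => by ring
  rw [e1, map_sum]
  have e2 : ∀ s, E (l s * (l s * P)) = E (c s s * P) + E (l s * D s P) := by
    intro s
    rw [h1, Derivation.leibniz, h2, ← map_add]
    congr 1
    simp only [smul_eq_mul]; ring
  rw [Finset.sum_congr rfl fun s _ => e2 s, Finset.sum_add_distrib, ← map_sum, Finset.sum_mul]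

theorem fam_moments (h1 : ∀ s P, E (l s * P) = E (D s P)) (h2 : ∀ s t, D s (l t) = c s t)
    (h3 : ∀ s t u, D s (c t u) = 0) (hs : ∀ s t, c s t = c t s) :
    E (∑ s, l s ^ 2) = E (∑ s, c s s) ∧
    E ((∑ s, l s ^ 2) ^ 2) = E ((∑ s, c s s) ^ 2) + 2 * E (∑ s, ∑ t, c s t ^ 2) ∧
    E ((∑ s, l s ^ 2) ^ 3) = E ((∑ s, c s s) ^ 3)
      + 6 * E ((∑ s, c s s) * ∑ s, ∑ t, c s t ^ 2)
      + 8 * E (∑ s, ∑ t, ∑ u, c s t * c t u * c u s) := by
  set V : R := ∑ s, l s ^ 2 with hV
  set T : R := ∑ s, c s s with hT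
  set H : R := ∑ s, ∑ t, c s t ^ 2 with hH
  set K : R := ∑ s, ∑ t, ∑ u, c s t * c t u * c u s with hK
  set Q : R := ∑ s, ∑ t, c s t * l s * l t with hQ
  have step := fam_step E D l c h1 h2
  rw [← hV, ← hT] at step
  have dT : ∀ s, D s T = 0 := by
    intro s; rw [hT, map_sum]; exact Finset.sum_eq_zero fun t _ => h3 _ _ _
  have dV : ∀ s, D s V = 2 * ∑ t, c s t * l t := by
    intro s
    rw [hV, map_sum, Finset.mul_sum]
    refine Finset.sum_congr rfl fun t _ => ?_
    rw [Derivation.leibniz_pow, h2]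
    simp only [smul_eq_mul, nsmul_eq_mul]
    push_cast; ring
  have lV : ∑ s, l s * D s V = 2 * Q := by
    rw [hQ, Finset.mul_sum]
    refine Finset.sum_congr rfl fun s _ => ?_
    rw [dV, Finset.mul_sum, Finset.mul_sum, Finset.mul_sum]
    exact Finset.sum_congr rfl fun t _ => by ring
  -- E (Q * P) for P killed by all D
  have eQ : ∀ P, (∀ s, D s P = 0) → E (Q * P) = E (H * P) := by
    intro P hP
    have e1 : Q * P = ∑ s, l s * ((∑ t, c s t * l t) * P) := by
      rw [hQ, Finset.sum_mul]
      refine Finset.sum_congr rfl fun s _ => ?_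
      rw [Finset.sum_mul, Finset.sum_mul, Finset.mul_sum]
      exact Finset.sum_congr rfl fun t _ => by ring
    rw [e1, map_sum, hH, Finset.sum_mul, map_sum]
    refine Finset.sum_congr rfl fun s _ => ?_
    rw [h1, Derivation.leibniz, hP, smul_zero, zero_add, map_sum]
    congr 1
    simp only [smul_eq_mul]
    rw [mul_comm]
    congr 1
    refine Finset.sum_congr rfl fun t _ => ?_
    rw [Derivation.leibniz, h3, smul_zero, add_zero, h2]
    simp only [smul_eq_mul]; ring
  have eV : ∀ P, (∀ s, D s P = 0) → E (V * P) = E (T * P) := by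
    intro P hP
    rw [step P]
    simp only [hP, mul_zero, map_zero, Finset.sum_const_zero, add_zero]
  have m1 : E V = E T := by
    have := eV 1 (fun s => by simp)
    simpa using this
  have q1 : E Q = E H := by
    have := eQ 1 (fun s => by simp)
    simpa using this
  have qT : E (Q * T) = E (H * T) := eQ T dT
  have dT2 : ∀ s, D s (T * T) = 0 := by
    intro s; rw [Derivation.leibniz, dT]; simp
  have vT : E (V * T) = E (T * T) := eV T dT
  have vTT : E (V * (T * T)) = E (T * (T * T)) := eV _ dT2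
  have m2 : E (V * V) = E (T * T) + 2 * E H := by
    rw [step V, ← map_sum, lV]
    have : E (2 * Q) = 2 * E Q := by rw [two_mul, map_add]; ring
    rw [this, q1, mul_comm T V, vT]
  -- E (V * (V * T))
  have lVT : ∑ s, l s * D s (V * T) = 2 * (Q * T) := by
    have : ∀ s, l s * D s (V * T) = (l s * D s V) * T := by
      intro s
      rw [Derivation.leibniz, dT]
      simp only [smul_eq_mul, mul_zero, zero_add]; ring
    rw [Finset.sum_congr rfl fun s _ => this s, ← Finset.sum_mul, lV]; ring
  have mVVT : E (V * (V * T)) = E (T * (T * T)) + 2 * E (H * T) := by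
    rw [step (V * T), ← map_sum, lVT]
    have : E (2 * (Q * T)) = 2 * E (Q * T) := by rw [two_mul, map_add]; ring
    have e : E (T * (V * T)) = E (V * (T * T)) := by congr 1; ring
    rw [this, qT, e, vTT]
  -- E (V * Q)
  have dQ : ∀ s, D s Q = 2 * ∑ t, ∑ u, c s t * c t u * l u := by
    intro s
    have e1 : D s Q = ∑ t, ∑ u, (c t u * c s t * l u + c t u * l t * c s u) := by
      rw [hQ, map_sum]
      refine Finset.sum_congr rfl fun t _ => ?_
      rw [map_sum]
      refine Finset.sum_congr rfl fun u _ => ?_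
      rw [Derivation.leibniz, Derivation.leibniz, h3, h2, h2]
      simp only [smul_eq_mul]; ring
    have e2 : ∑ t, ∑ u, c t u * l t * c s u = ∑ t, ∑ u, c s t * c t u * l u := by
      rw [Finset.sum_comm]
      refine Finset.sum_congr rfl fun t _ => Finset.sum_congr rfl fun u _ => ?_
      rw [hs u t]; ring
    have e3 : ∑ t, ∑ u, c t u * c s t * l u = ∑ t, ∑ u, c s t * c t u * l u := by
      refine Finset.sum_congr rfl fun t _ => Finset.sum_congr rfl fun u _ => ?_
      ring
    rw [e1]
    simp only [Finset.sum_add_distrib]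
    rw [e2, e3]; ring
  have eK : ∑ s, E (l s * D s Q) = 2 * E K := by
    have e1 : ∀ s, E (l s * D s Q) = 2 * E (∑ t, ∑ u, c s t * c t u * c u s) := by
      intro s
      rw [dQ]
      have : l s * (2 * ∑ t, ∑ u, c s t * c t u * l u) =
          (l s * ∑ t, ∑ u, c s t * c t u * l u) + (l s * ∑ t, ∑ u, c s t * c t u * l u) := by ring
      rw [this, map_add, ← two_mul, h1]
      congr 2
      rw [map_sum]
      refine Finset.sum_congr rfl fun t _ => ?_
      rw [map_sum]
      refine Finset.sum_congr rfl fun u _ => ?_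
      rw [Derivation.leibniz, Derivation.leibniz, h3, h3, h2, hs s u]
      simp only [smul_eq_mul]; ring
    rw [Finset.sum_congr rfl fun s _ => e1 s, ← Finset.mul_sum, ← map_sum]
  have mVQ : E (V * Q) = E (H * T) + 2 * E K := by
    rw [step Q, eK, mul_comm T Q, qT]
  have m3 : E (V * (V * V)) = E (T * (T * T)) + 6 * E (T * H) + 8 * E K := by
    have lVV : ∑ s, l s * D s (V * V) = 4 * (V * Q) := by
      have : ∀ s, l s * D s (V * V) = 2 * (V * (l s * D s V)) := by
        intro s
        rw [Derivation.leibniz]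
        simp only [smul_eq_mul]; ring
      rw [Finset.sum_congr rfl fun s _ => this s, ← Finset.mul_sum, ← Finset.mul_sum, lV]; ring
    rw [step (V * V), ← map_sum, lVV]
    have e4 : E (4 * (V * Q)) = 4 * E (V * Q) := by
      have : (4 : R) * (V * Q) = V * Q + V * Q + V * Q + V * Q := by ring
      rw [this, map_add, map_add, map_add]; ring
    have e : E (T * (V * V)) = E (V * (V * T)) := by congr 1; ring
    have e5 : E (T * H) = E (H * T) := by rw [mul_comm]
    rw [e4, e, mVVT, mVQ, e5]; ring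
  refine ⟨m1, ?_, ?_⟩
  · rw [pow_two, pow_two, m2]
  · have a : V ^ 3 = V * (V * V) := by ring
    have b : T ^ 3 = T * (T * T) := by ring
    rw [a, b, m3]

end family

end Pool.Agent.TH722.K6
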