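import Pool.Agent.TH722.K6.Gauss
import Pool.Agent.TH722.K6.Alg

/-!
# Multilinear forms in independent Gaussian blocks
-/

set_option autoImplicit false
set_option linter.unusedSectionVars false

namespace Pool.Agent.TH722.K6

open Finset MvPolynomial

variable {β : Type} [Fintype β] [DecidableEq β] {n : ℕ}

/-- the multilinear form with blocks `L` and coefficients `a` -/
noncomputable def F : List β → (List (Fin n) → ℝ) → MvPolynomial (β × Fin n) ℝ
  | [], a => C (a [])
  | b :: L, a => ∑ i, X (b, i) * F L (fun I => a (i :: I))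

/-- the slice of a coefficient family -/
def sl (a : List (Fin n) → ℝ) (i : Fin n) : List (Fin n) → ℝ := fun I => a (i :: I)

theorem F_cons (b : β) (L : List β) (a : List (Fin n) → ℝ) :
    F (b :: L) a = ∑ i, X (b, i) * F L (sl a i) := rfl

theorem F_nil (a : List (Fin n) → ℝ) : F ([] : List β) a = C (a []) := rfl

theorem pd_free (b : β) (i : Fin n) : ∀ (L : List β) (a : List (Fin n) → ℝ), b ∉ L →
    pderiv (b, i) (F L a) = 0
  | [], a, _ => by rw [F_nil, pderiv_C]
  | c :: L, a, h => by
    rw [List.mem_cons, not_or] at h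
    rw [F_cons, map_sum]
    refine Finset.sum_eq_zero fun j _ => ?_
    rw [Derivation.leibniz, pd_free b i L _ h.2, smul_zero, zero_add,
      pderiv_X_of_ne (fun e => h.1 (Prod.mk.inj e).1.symm), smul_zero]

theorem pd_cons (b : β) (i : Fin n) (L : List β) (a : List (Fin n) → ℝ) (h : b ∉ L) :
    pderiv (b, i) (F (b :: L) a) = F L (sl a i) := by
  rw [F_cons, map_sum, Finset.sum_eq_single i]
  · rw [Derivation.leibniz, pd_free b i L _ h, smul_zero, zero_add, pderiv_X_self]
    simp
  · intro j _ hj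
    rw [Derivation.leibniz, pd_free b i L _ h, smul_zero, zero_add,
      pderiv_X_of_ne (fun e => hj (Prod.mk.inj e).2), smul_zero]
  · intro h; exact absurd (Finset.mem_univ i) h

theorem pd_pd (b : β) (i j : Fin n) : ∀ (L : List β) (a : List (Fin n) → ℝ), L.Nodup →
    pderiv (b, i) (pderiv (b, j) (F L a)) = 0
  | [], a, _ => by rw [F_nil, pderiv_C, map_zero]
  | c :: L, a, h => by
    rw [List.nodup_cons] at h
    by_cases hc : b = c
    · subst hc
      rw [pd_cons b j L a h.1, pd_free b i L _ h.1]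
    · rw [F_cons, map_sum, map_sum]
      refine Finset.sum_eq_zero fun k _ => ?_
      have hx : ∀ m : Fin n, pderiv (b, m) (X (c, k) : MvPolynomial (β × Fin n) ℝ) = 0 :=
        fun m => pderiv_X_of_ne (fun e => hc (Prod.mk.inj e).1.symm)
      rw [Derivation.leibniz, hx, smul_zero, add_zero, smul_eq_mul, Derivation.leibniz, hx,
        smul_zero, add_zero, pd_pd b i j L _ h.2, smul_zero]

/-- the derivation `∑ w_i ∂_(b,i)` -/
noncomputable def Dw (b : β) (w : Fin n → MvPolynomial (β × Fin n) ℝ) :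
    Derivation ℝ (MvPolynomial (β × Fin n) ℝ) (MvPolynomial (β × Fin n) ℝ) :=
  ∑ i, w i • pderiv (b, i)

theorem Dw_apply (b : β) (w : Fin n → MvPolynomial (β × Fin n) ℝ)
    (P : MvPolynomial (β × Fin n) ℝ) : Dw b w P = ∑ i, w i * pderiv (b, i) P := by
  have h := congrFun (map_sum (Derivation.coeFnAddMonoidHom (R := ℝ)
    (A := MvPolynomial (β × Fin n) ℝ) (M := MvPolynomial (β × Fin n) ℝ))
    (fun i => w i • pderiv (b, i)) Finset.univ) P
  rw [Finset.sum_apply] at h
  refine Eq.trans h (Finset.sum_congr rfl fun i _ => ?_)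
  show (w i • pderiv (b, i)) P = _
  rw [Derivation.smul_apply, smul_eq_mul]

/-- the Hessian `∑ w_i w_j ∂_i ∂_j` -/
noncomputable def Hs (b : β) (w : Fin n → MvPolynomial (β × Fin n) ℝ)
    (P : MvPolynomial (β × Fin n) ℝ) : MvPolynomial (β × Fin n) ℝ :=
  ∑ i, ∑ j, w i * w j * pderiv (b, i) (pderiv (b, j) P)

theorem Hs_sum {γ : Type} (s : Finset γ) (b : β) (w : Fin n → MvPolynomial (β × Fin n) ℝ)
    (P : γ → MvPolynomial (β × Fin n) ℝ) : Hs b w (∑ k ∈ s, P k) = ∑ k ∈ s, Hs b w (P k) := by
  unfold Hs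
  simp only [map_sum, Finset.mul_sum]
  have e : ∀ i : Fin n, ∑ j, ∑ k ∈ s, w i * w j * pderiv (b, i) (pderiv (b, j) (P k)) =
      ∑ k ∈ s, ∑ j, w i * w j * pderiv (b, i) (pderiv (b, j) (P k)) := fun i => Finset.sum_comm
  simp only [e]
  exact Finset.sum_comm

theorem Hs_mul (b : β) (w : Fin n → MvPolynomial (β × Fin n) ℝ)
    (P Q : MvPolynomial (β × Fin n) ℝ) :
    Hs b w (P * Q) = P * Hs b w Q + 2 * (Dw b w P * Dw b w Q) + Q * Hs b w P := by
  have e : ∀ i j, w i * w j * pderiv (b, i) (pderiv (b, j) (P * Q)) =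
      P * (w i * w j * pderiv (b, i) (pderiv (b, j) Q)) +
      (w i * pderiv (b, i) P) * (w j * pderiv (b, j) Q) +
      (w i * pderiv (b, i) Q) * (w j * pderiv (b, j) P) +
      Q * (w i * w j * pderiv (b, i) (pderiv (b, j) P)) := by
    intro i j
    rw [Derivation.leibniz, map_add, smul_eq_mul, smul_eq_mul, Derivation.leibniz,
      Derivation.leibniz]
    simp only [smul_eq_mul]
    ring
  unfold Hs
  simp only [e, Finset.sum_add_distrib, ← Finset.mul_sum, ← Finset.sum_mul, ← Dw_apply]
  ring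

/-- Gaussian integration by parts for a linear form -/
theorem stein_F (b : β) (L : List β) (a : List (Fin n) → ℝ) (h : b ∉ L)
    (P : MvPolynomial (β × Fin n) ℝ) :
    Ex (F (b :: L) a * P) = Ex (Dw b (fun i => F L (sl a i)) P) := by
  rw [F_cons, Finset.sum_mul, map_sum, Dw_apply, map_sum]
  refine Finset.sum_congr rfl fun i _ => ?_
  rw [mul_assoc, stein, Derivation.leibniz, pd_free b i L _ h, smul_zero, add_zero, smul_eq_mul]

theorem Dw_F (b : β) (L : List β) (a : List (Fin n) → ℝ) (h : b ∉ L)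
    (w : Fin n → MvPolynomial (β × Fin n) ℝ) :
    Dw b w (F (b :: L) a) = ∑ i, w i * F L (sl a i) := by
  rw [Dw_apply]
  exact Finset.sum_congr rfl fun i _ => by rw [pd_cons b i L a h]

theorem Dw_free (b : β) (L : List β) (a : List (Fin n) → ℝ) (h : b ∉ L)
    (w : Fin n → MvPolynomial (β × Fin n) ℝ) : Dw b w (F L a) = 0 := by
  rw [Dw_apply]
  exact Finset.sum_eq_zero fun i _ => by rw [pd_free b i L a h, mul_zero]

theorem Hs_F (b : β) (L : List β) (a : List (Fin n) → ℝ) (h : L.Nodup)
    (w : Fin n → MvPolynomial (β × Fin n) ℝ) : Hs b w (F L a) = 0 := by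
  unfold Hs
  exact Finset.sum_eq_zero fun i _ => Finset.sum_eq_zero fun j _ => by
    rw [pd_pd b i j L a h, mul_zero]

/-- sum of squares of a family of forms -/
noncomputable def V {α : Type} [Fintype α] (L : List β) (a : α → List (Fin n) → ℝ) :
    MvPolynomial (β × Fin n) ℝ := ∑ s, F L (a s) ^ 2

/-- the family of slices -/
def sls {α : Type} (a : α → List (Fin n) → ℝ) : α × Fin n → List (Fin n) → ℝ :=
  fun s => sl (a s.1) s.2

/-- the Gram matrix of a family of forms with respect to the first block -/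
noncomputable def Cm {α : Type} (L : List β) (a : α → List (Fin n) → ℝ) (s t : α) :
    MvPolynomial (β × Fin n) ℝ := ∑ i, F L (sl (a s) i) * F L (sl (a t) i)

theorem Cm_trace {α : Type} [Fintype α] (L : List β) (a : α → List (Fin n) → ℝ) :
    ∑ s, Cm L a s s = V L (sls a) := by
  unfold Cm V sls
  rw [Fintype.sum_prod_type]
  exact Finset.sum_congr rfl fun s _ => Finset.sum_congr rfl fun i _ => by rw [pow_two]

/-- convexity on the average in the block `b` -/
def Cvx (b : β) (h : MvPolynomial (β × Fin n) ℝ) : Prop :=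
  ∀ w : Fin n → MvPolynomial (β × Fin n) ℝ, 0 ≤ Ex (Hs b w h)

theorem corr : ∀ (L : List β) (α : Type) [Fintype α] (a : α → List (Fin n) → ℝ)
    (h : MvPolynomial (β × Fin n) ℝ), L.Nodup → (∀ b ∈ L, Cvx b h) →
    Ex (V L a) * Ex h ≤ Ex (V L a * h)
  | [], α, _, a, h, _, _ => by
    have : V ([] : List β) a = C (∑ s, a s [] ^ 2) := by
      unfold V
      simp only [F_nil, map_sum, map_pow]
    rw [this, Ex_C, Ex_C_mul]
  | b :: L, α, _, a, h, hL, hc => by
    rw [List.nodup_cons] at hL
    have step := fam_step (Ex (ι := β × Fin n)) (fun s => Dw b (fun i => F L (sl (a s) i)))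
      (fun s => F (b :: L) (a s)) (Cm L a) (fun s P => stein_F b L (a s) hL.1 P)
      (fun s t => Dw_F b L (a t) hL.1 _)
    have s1 := step 1
    have sh := step h
    have e1 : Ex (V (b :: L) a) = Ex (V L (sls a)) := by
      have : ∀ s, (Dw b (fun i => F L (sl (a s) i))) (1 : MvPolynomial (β × Fin n) ℝ) = 0 :=
        fun s => by simp
      simp only [this, mul_one, mul_zero, map_zero, Finset.sum_const_zero, add_zero] at s1
      rw [Cm_trace] at s1
      exact s1
    have ih := corr L (α × Fin n) (sls a) h hL.2 (fun b' hb' => hc b' (List.mem_cons_of_mem _ hb'))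
    have e2 : ∀ s, Ex (F (b :: L) (a s) * (Dw b (fun i => F L (sl (a s) i))) h) =
        Ex (Hs b (fun i => F L (sl (a s) i)) h) := by
      intro s
      rw [stein_F b L (a s) hL.1, Dw_apply]
      unfold Hs
      congr 1
      refine Finset.sum_congr rfl fun i _ => ?_
      rw [Dw_apply, map_sum, Finset.mul_sum]
      refine Finset.sum_congr rfl fun j _ => ?_
      rw [Derivation.leibniz, pd_free b i L _ hL.1, smul_zero, add_zero, smul_eq_mul]
      ring
    have e3 : 0 ≤ ∑ s, Ex (F (b :: L) (a s) * (Dw b (fun i => F L (sl (a s) i))) h) :=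
      Finset.sum_nonneg fun s _ => by
        rw [e2]; exact hc b List.mem_cons_self _
    rw [e1]
    have sh' : Ex (V (b :: L) a * h) = Ex (V L (sls a) * h) +
        ∑ s, Ex (F (b :: L) (a s) * (Dw b (fun i => F L (sl (a s) i))) h) := by
      rw [← Cm_trace]; exact sh
    rw [sh']
    linarith

end Pool.Agent.TH722.K6
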