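import Mathlib

/-!
# Gaussian expectation of polynomials, with integration by parts
(one-dimensional part as in `Pool.Agent.H999R5.Inj.T_GAU`)
-/

set_option autoImplicit false

namespace Pool.Agent.TH722.K6

open MeasureTheory ProbabilityTheory Finset MvPolynomial

/-- the weight -/
noncomputable def ew (x : ℝ) : ℝ := Real.exp (-(1 / 2 : ℝ) * x ^ 2)

theorem int_ew (k : ℕ) : Integrable (fun x : ℝ => x ^ k * ew x) := by
  have h := integrable_rpow_mul_exp_neg_mul_sq (b := 1 / 2) (by norm_num) (s := (k : ℝ))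
    (lt_of_lt_of_le (by norm_num) (Nat.cast_nonneg k))
  refine h.congr (Filter.Eventually.of_forall fun x => ?_)
  simp only [Real.rpow_natCast, ew]

theorem gau_eq (f : ℝ → ℝ) :
    ∫ x, f x ∂(gaussianReal 0 1) = (Real.sqrt (2 * Real.pi))⁻¹ * ∫ x, f x * ew x := by
  rw [integral_gaussianReal_eq_integral_smul (by norm_num), ← integral_const_mul]
  refine integral_congr_ae (Filter.Eventually.of_forall fun x => ?_)
  simp only [gaussianPDFReal, ew, smul_eq_mul, sub_zero, NNReal.coe_one, mul_one]
  have : -x ^ 2 / 2 = -(1 / 2 : ℝ) * x ^ 2 := by ring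
  rw [this]
  ring

theorem int_pow (k : ℕ) : Integrable (fun x : ℝ => x ^ k) (gaussianReal 0 1) := by
  have h := (memLp_id_gaussianReal (μ := 0) (v := 1) (k : NNReal)).integrable_norm_pow'
  refine (integrable_norm_iff (by fun_prop)).1 ?_
  refine h.congr (Filter.Eventually.of_forall fun x => ?_)
  simp [norm_pow]

theorem rec_ew (k : ℕ) : ∫ x : ℝ, x ^ (k + 1) * ew x = k * ∫ x : ℝ, x ^ (k - 1) * ew x := by
  have hv : ∀ x : ℝ, HasDerivAt ew (-x * ew x) x := by
    intro x
    have h1 : HasDerivAt (fun y : ℝ => -(1 / 2 : ℝ) * y ^ 2) (-x) x := by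
      have := (hasDerivAt_pow 2 x).const_mul (-(1 / 2 : ℝ))
      refine this.congr_deriv ?_
      push_cast
      ring
    have h2 : HasDerivAt ew (Real.exp (-(1 / 2 : ℝ) * x ^ 2) * -x) x := h1.exp
    refine h2.congr_deriv ?_
    unfold ew
    ring
  have hu : ∀ x : ℝ, HasDerivAt (fun y : ℝ => y ^ k) (k * x ^ (k - 1)) x := fun x =>
    hasDerivAt_pow k x
  have i1 : Integrable ((fun y : ℝ => y ^ k) * fun x => -x * ew x) := by
    have := (int_ew (k + 1)).neg
    refine this.congr (Filter.Eventually.of_forall fun x => ?_)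
    simp only [Pi.neg_apply, Pi.mul_apply]
    ring
  have i2 : Integrable ((fun x : ℝ => (k : ℝ) * x ^ (k - 1)) * ew) := by
    have := (int_ew (k - 1)).const_mul (k : ℝ)
    refine this.congr (Filter.Eventually.of_forall fun x => ?_)
    simp only [Pi.mul_apply]
    ring
  have i3 : Integrable ((fun y : ℝ => y ^ k) * ew) := int_ew k
  have h := integral_mul_deriv_eq_deriv_mul_of_integrable (u := fun y : ℝ => y ^ k) (v := ew)
    (fun x _ => hu x) (fun x _ => hv x) i1 i2 i3
  have e1 : ∫ x : ℝ, x ^ k * (-x * ew x) = - ∫ x : ℝ, x ^ (k + 1) * ew x := by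
    rw [← integral_neg]
    refine integral_congr_ae (Filter.Eventually.of_forall fun x => ?_)
    simp only
    ring
  have e2 : ∫ x : ℝ, (k : ℝ) * x ^ (k - 1) * ew x = k * ∫ x : ℝ, x ^ (k - 1) * ew x := by
    rw [← integral_const_mul]
    refine integral_congr_ae (Filter.Eventually.of_forall fun x => ?_)
    simp only
    ring
  rw [e1, e2] at h
  linarith

/-- one-dimensional recursion -/
theorem rec_one (k : ℕ) : ∫ x, x ^ (k + 1) ∂(gaussianReal 0 1) =
    k * ∫ x, x ^ (k - 1) ∂(gaussianReal 0 1) := by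
  rw [gau_eq, gau_eq, rec_ew]
  ring

variable {ι : Type} [Fintype ι]

/-- the standard Gaussian measure -/
noncomputable def gm (ι : Type) [Fintype ι] : Measure (ι → ℝ) :=
  Measure.pi fun _ => gaussianReal 0 1

instance : IsProbabilityMeasure (gm ι) := by unfold gm; infer_instance

theorem int_mon (a : ι → ℕ) : Integrable (fun g : ι → ℝ => ∏ j, g j ^ a j) (gm ι) :=
  Integrable.fintype_prod (f := fun j (x : ℝ) => x ^ a j) fun j => int_pow (a j)

theorem val_mon (a : ι → ℕ) : ∫ g : ι → ℝ, ∏ j, g j ^ a j ∂(gm ι) =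
    ∏ j, ∫ x, x ^ a j ∂(gaussianReal 0 1) :=
  integral_fintype_prod_eq_prod (fun j (x : ℝ) => x ^ a j)

theorem eval_mon (u : ι →₀ ℕ) (c : ℝ) (g : ι → ℝ) :
    MvPolynomial.eval g (MvPolynomial.monomial u c) = c * ∏ j, g j ^ u j := by
  rw [MvPolynomial.eval_monomial, Finsupp.prod_fintype _ _ (fun i => by simp)]

theorem mon [DecidableEq ι] (u : ι →₀ ℕ) (i : ι) :
    ∫ g : ι → ℝ, g i * ∏ j, g j ^ u j ∂(gm ι) =
      u i * ∫ g : ι → ℝ, ∏ j, g j ^ (u - Finsupp.single i 1 : ι →₀ ℕ) j ∂(gm ι) := by
  have e1 : ∀ g : ι → ℝ, g i * ∏ j, g j ^ u j = ∏ j, g j ^ (u + Finsupp.single i 1 : ι →₀ ℕ) j := by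
    intro g
    have : ∏ j, g j ^ (u + Finsupp.single i 1 : ι →₀ ℕ) j
        = (∏ j, g j ^ u j) * ∏ j, g j ^ (Finsupp.single i 1 : ι →₀ ℕ) j := by
      rw [← Finset.prod_mul_distrib]
      refine Finset.prod_congr rfl fun j _ => ?_
      rw [Finsupp.add_apply, pow_add]
    have h2 : ∏ j, g j ^ (Finsupp.single i 1 : ι →₀ ℕ) j = g i := by
      rw [Finset.prod_eq_single i]
      · rw [Finsupp.single_eq_same, pow_one]
      · intro j _ hj
        rw [Finsupp.single_eq_of_ne (by exact hj), pow_zero]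
      · intro h; exact absurd (Finset.mem_univ i) h
    rw [this, h2, mul_comm]
  simp_rw [e1]
  rw [val_mon, val_mon, ← Finset.mul_prod_erase _ _ (Finset.mem_univ i),
    ← Finset.mul_prod_erase (s := Finset.univ)
      (f := fun j => ∫ x, x ^ (u - Finsupp.single i 1 : ι →₀ ℕ) j ∂(gaussianReal 0 1))
      (a := i) (Finset.mem_univ i), ← mul_assoc]
  congr 1
  · rw [Finsupp.add_apply, Finsupp.single_eq_same, rec_one, Finsupp.tsub_apply,
      Finsupp.single_eq_same]
  · refine Finset.prod_congr rfl fun j hj => ?_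
    have hj' : j ≠ i := (Finset.mem_erase.1 hj).1
    rw [Finsupp.add_apply, Finsupp.tsub_apply, Finsupp.single_eq_of_ne (by exact hj'),
      add_zero, Nat.sub_zero]

theorem int_poly (P : MvPolynomial ι ℝ) :
    Integrable (fun g => MvPolynomial.eval g P) (gm ι) := by
  induction P using MvPolynomial.induction_on' with
  | monomial u c =>
    simp only [eval_mon]
    exact (int_mon _).const_mul c
  | add p q hp hq =>
    simp only [map_add]
    exact hp.add hq

theorem int_X_poly (P : MvPolynomial ι ℝ) (i : ι) :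
    Integrable (fun g => g i * MvPolynomial.eval g P) (gm ι) := by
  have h := int_poly (MvPolynomial.X i * P)
  refine h.congr (Filter.Eventually.of_forall fun g => ?_)
  simp

/-- the expectation of a polynomial in independent standard Gaussians -/
noncomputable def Ex : MvPolynomial ι ℝ →ₗ[ℝ] ℝ where
  toFun P := ∫ g, MvPolynomial.eval g P ∂(gm ι)
  map_add' P Q := by
    simp only [map_add]
    exact integral_add (int_poly P) (int_poly Q)
  map_smul' c P := by
    simp only [MvPolynomial.smul_eval, RingHom.id_apply, smul_eq_mul]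
    exact integral_const_mul c _

theorem Ex_apply (P : MvPolynomial ι ℝ) : Ex P = ∫ g, MvPolynomial.eval g P ∂(gm ι) := rfl

theorem Ex_C (c : ℝ) : Ex (C c : MvPolynomial ι ℝ) = c := by
  rw [Ex_apply]; simp

theorem Ex_C_mul (c : ℝ) (P : MvPolynomial ι ℝ) : Ex (C c * P) = c * Ex P := by
  rw [MvPolynomial.C_mul', map_smul, smul_eq_mul]

theorem Ex_sq_nonneg (P : MvPolynomial ι ℝ) : 0 ≤ Ex (P ^ 2) := by
  rw [Ex_apply]
  exact integral_nonneg fun g => by simp only [map_pow]; positivity

theorem stein [DecidableEq ι] (P : MvPolynomial ι ℝ) (i : ι) :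
    Ex (X i * P) = Ex (pderiv i P) := by
  rw [Ex_apply, Ex_apply]
  have e0 : ∀ g : ι → ℝ, MvPolynomial.eval g (X i * P) = g i * MvPolynomial.eval g P := by
    intro g; simp
  simp_rw [e0]
  induction P using MvPolynomial.induction_on' with
  | monomial u c =>
    rw [MvPolynomial.pderiv_monomial]
    simp only [eval_mon]
    have e1 : ∀ g : ι → ℝ, g i * (c * ∏ j, g j ^ u j) = c * (g i * ∏ j, g j ^ u j) := by
      intro g; ring
    simp_rw [e1]
    rw [integral_const_mul, integral_const_mul, mon]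
    ring
  | add p q hp hq =>
    have hp' := hp (fun g => by simp)
    have hq' := hq (fun g => by simp)
    simp only [map_add, mul_add]
    rw [integral_add (int_X_poly p i) (int_X_poly q i), hp', hq',
      integral_add (int_poly _) (int_poly _)]

end Pool.Agent.TH722.K6
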