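import Pool.Agent.TH722.K6.Forms

/-!
# Positivity of the third cumulant of the squared norm of a multilinear form
-/

set_option autoImplicit false
set_option linter.unusedSectionVars false

namespace Pool.Agent.TH722.K6

open Finset MvPolynomial

variable {β : Type} [Fintype β] [DecidableEq β] {n : ℕ} {α : Type} [Fintype α]

theorem Cm_symm (L : List β) (a : α → List (Fin n) → ℝ) (s t : α) : Cm L a s t = Cm L a t s := by
  unfold Cm
  exact Finset.sum_congr rfl fun i _ => mul_comm _ _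

theorem Dw_Cm (b : β) (L : List β) (a : α → List (Fin n) → ℝ) (h : b ∉ L)
    (w : Fin n → MvPolynomial (β × Fin n) ℝ) (s t : α) : Dw b w (Cm L a s t) = 0 := by
  unfold Cm
  rw [map_sum]
  refine Finset.sum_eq_zero fun i _ => ?_
  rw [Derivation.leibniz, Dw_free b L _ h, Dw_free b L _ h, smul_zero, smul_zero, add_zero]

/-- the Hilbert-Schmidt norm of the Gram matrix -/
noncomputable def Hh (L : List β) (a : α → List (Fin n) → ℝ) : MvPolynomial (β × Fin n) ℝ :=
  ∑ s, ∑ t, Cm L a s t ^ 2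

/-- the trace of the cube of the Gram matrix -/
noncomputable def Kk (L : List β) (a : α → List (Fin n) → ℝ) : MvPolynomial (β × Fin n) ℝ :=
  ∑ s, ∑ t, ∑ u, Cm L a s t * Cm L a t u * Cm L a u s

theorem V_moments (b : β) (L : List β) (a : α → List (Fin n) → ℝ) (h : b ∉ L) :
    Ex (V (b :: L) a) = Ex (V L (sls a)) ∧
    Ex (V (b :: L) a ^ 2) = Ex (V L (sls a) ^ 2) + 2 * Ex (Hh L a) ∧
    Ex (V (b :: L) a ^ 3) = Ex (V L (sls a) ^ 3) + 6 * Ex (V L (sls a) * Hh L a)
      + 8 * Ex (Kk L a) := by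
  have := fam_moments (Ex (ι := β × Fin n)) (fun s => Dw b (fun i => F L (sl (a s) i)))
      (fun s => F (b :: L) (a s)) (Cm L a) (fun s P => stein_F b L (a s) h P)
      (fun s t => Dw_F b L (a t) h _) (fun s t u => Dw_Cm b L a h _ t u)
      (fun s t => Cm_symm L a s t)
  rw [Cm_trace] at this
  exact this

theorem Kk_eq (L : List β) (a : α → List (Fin n) → ℝ) :
    Kk L a = ∑ s, ∑ i, (∑ t, F L (sl (a t) i) * Cm L a t s) ^ 2 := by
  unfold Kk
  refine Finset.sum_congr rfl fun s _ => ?_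
  simp only [pow_two, Finset.sum_mul_sum]
  symm
  rw [Finset.sum_comm]
  refine Finset.sum_congr rfl fun t _ => ?_
  rw [Finset.sum_comm]
  refine Finset.sum_congr rfl fun u _ => ?_
  have e : ∑ i, F L (sl (a t) i) * Cm L a t s * (F L (sl (a u) i) * Cm L a u s) =
      (∑ i, F L (sl (a t) i) * F L (sl (a u) i)) * (Cm L a t s * Cm L a u s) := by
    rw [Finset.sum_mul]
    exact Finset.sum_congr rfl fun i _ => by ring
  rw [e, Cm_symm L a s t]
  show Cm L a t u * _ = _
  ring

theorem Ex_Kk_nonneg (L : List β) (a : α → List (Fin n) → ℝ) : 0 ≤ Ex (Kk L a) := by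
  rw [Kk_eq, map_sum]
  refine Finset.sum_nonneg fun s _ => ?_
  rw [map_sum]
  exact Finset.sum_nonneg fun i _ => Ex_sq_nonneg _

theorem Hs_Cm (b : β) (L : List β) (a : α → List (Fin n) → ℝ) (h : L.Nodup)
    (w : Fin n → MvPolynomial (β × Fin n) ℝ) (s t : α) :
    Hs b w (Cm L a s t) =
      2 * ∑ i, Dw b w (F L (sl (a s) i)) * Dw b w (F L (sl (a t) i)) := by
  unfold Cm
  rw [Hs_sum, Finset.mul_sum]
  refine Finset.sum_congr rfl fun i _ => ?_
  rw [Hs_mul, Hs_F b L _ h, Hs_F b L _ h]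
  ring

theorem Cvx_Hh (b : β) (L : List β) (a : α → List (Fin n) → ℝ) (h : L.Nodup) :
    Cvx b (Hh L a) := by
  intro w
  have e1 : Hs b w (Hh L a) = ∑ s, ∑ t, ((Dw b w (Cm L a s t)) ^ 2 + (Dw b w (Cm L a s t)) ^ 2)
      + ∑ i, ∑ j, (2 * ∑ s, F L (sl (a s) i) * Dw b w (F L (sl (a s) j))) ^ 2 := by
    unfold Hh
    rw [Hs_sum]
    have e2 : ∀ s t, Hs b w (Cm L a s t ^ 2) =
        ((Dw b w (Cm L a s t)) ^ 2 + (Dw b w (Cm L a s t)) ^ 2) +
        4 * (Cm L a s t * ∑ j, Dw b w (F L (sl (a s) j)) * Dw b w (F L (sl (a t) j))) := by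
      intro s t
      rw [pow_two, Hs_mul, Hs_Cm b L a h]
      ring
    simp only [Hs_sum, e2, Finset.sum_add_distrib]
    congr 1
    have e3 : ∀ i j, (2 * ∑ s, F L (sl (a s) i) * Dw b w (F L (sl (a s) j))) ^ 2 =
        ∑ s, ∑ t, 4 * ((F L (sl (a s) i) * F L (sl (a t) i)) *
          (Dw b w (F L (sl (a s) j)) * Dw b w (F L (sl (a t) j)))) := by
      intro i j
      rw [mul_pow, pow_two (∑ s, _), Finset.sum_mul_sum, Finset.mul_sum]
      refine Finset.sum_congr rfl fun s _ => ?_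
      rw [Finset.mul_sum]
      exact Finset.sum_congr rfl fun t _ => by ring
    simp only [e3]
    have e4 : ∀ s t, 4 * (Cm L a s t * ∑ j, Dw b w (F L (sl (a s) j)) * Dw b w (F L (sl (a t) j)))
        = ∑ i, ∑ j, 4 * ((F L (sl (a s) i) * F L (sl (a t) i)) *
          (Dw b w (F L (sl (a s) j)) * Dw b w (F L (sl (a t) j)))) := by
      intro s t
      unfold Cm
      rw [Finset.sum_mul_sum, Finset.mul_sum]
      exact Finset.sum_congr rfl fun i _ => by rw [Finset.mul_sum]
    simp only [e4]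
    -- move i j outside
    have c1 : ∀ s : α, ∑ t : α, ∑ i : Fin n, ∑ j : Fin n, 4 * ((F L (sl (a s) i) * F L (sl (a t) i)) *
          (Dw b w (F L (sl (a s) j)) * Dw b w (F L (sl (a t) j)))) =
        ∑ i : Fin n, ∑ j : Fin n, ∑ t : α, 4 * ((F L (sl (a s) i) * F L (sl (a t) i)) *
          (Dw b w (F L (sl (a s) j)) * Dw b w (F L (sl (a t) j)))) := by
      intro s
      rw [Finset.sum_comm]
      exact Finset.sum_congr rfl fun i _ => Finset.sum_comm
    simp only [c1]
    rw [Finset.sum_comm]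
    exact Finset.sum_congr rfl fun i _ => Finset.sum_comm
  rw [e1, map_add, map_sum, map_sum]
  refine add_nonneg (Finset.sum_nonneg fun s _ => ?_) (Finset.sum_nonneg fun i _ => ?_)
  · rw [map_sum]
    refine Finset.sum_nonneg fun t _ => ?_
    rw [map_add]
    exact add_nonneg (Ex_sq_nonneg _) (Ex_sq_nonneg _)
  · rw [map_sum]
    exact Finset.sum_nonneg fun j _ => Ex_sq_nonneg _

/-- the third cumulant of the squared norm -/
noncomputable def kap (L : List β) (a : α → List (Fin n) → ℝ) : ℝ :=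
  Ex (V L a ^ 3) - 3 * Ex (V L a) * Ex (V L a ^ 2) + 2 * Ex (V L a) ^ 3

theorem kap_cons (b : β) (L : List β) (a : α → List (Fin n) → ℝ) (h : (b :: L).Nodup) :
    kap L (sls a) + 8 * Ex (Kk L a) ≤ kap (b :: L) a := by
  rw [List.nodup_cons] at h
  obtain ⟨m1, m2, m3⟩ := V_moments b L a h.1
  have hc := corr L (α × Fin n) (sls a) (Hh L a) h.2 (fun b' _ => Cvx_Hh b' L a h.2)
  unfold kap
  rw [m1, m2, m3]
  nlinarith [hc]

theorem kap_nil (a : α → List (Fin n) → ℝ) : kap ([] : List β) a = 0 := by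
  have : V ([] : List β) a = C (∑ s, a s [] ^ 2) := by
    unfold V
    simp only [F_nil, map_sum, map_pow]
  unfold kap
  rw [this, ← map_pow, ← map_pow, Ex_C, Ex_C, Ex_C]
  ring

/-- the Gram matrix of the last index -/
noncomputable def Mm {γ : Type} [Fintype γ] (y : γ → Fin n → ℝ) (i j : Fin n) : ℝ :=
  ∑ s, y s i * y s j

theorem Kk_nil (a : α → List (Fin n) → ℝ) :
    Ex (Kk ([] : List β) a) = ∑ i, ∑ j, ∑ k, Mm (fun s i => a s [i]) i j *
      Mm (fun s i => a s [i]) j k * Mm (fun s i => a s [i]) k i := by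
  have hC : ∀ s t : α, Cm ([] : List β) a s t = C (∑ i, a s [i] * a t [i]) := by
    intro s t
    unfold Cm
    simp only [F_nil, map_sum, map_mul]
    rfl
  have hK : Kk ([] : List β) a = C (∑ s, ∑ i, (∑ t, a t [i] * ∑ j, a t [j] * a s [j]) ^ 2) := by
    rw [Kk_eq]
    simp only [hC, F_nil, map_sum, map_mul, map_pow]
    rfl
  rw [hK, Ex_C]
  have e1 : ∀ s i, ∑ t, a t [i] * ∑ j, a t [j] * a s [j] =
      ∑ j, Mm (fun s i => a s [i]) i j * a s [j] := by
    intro s i
    unfold Mm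
    simp only [Finset.mul_sum, Finset.sum_mul]
    rw [Finset.sum_comm]
    exact Finset.sum_congr rfl fun j _ => Finset.sum_congr rfl fun t _ => by ring
  simp only [e1]
  rw [Finset.sum_comm]
  refine Finset.sum_congr rfl fun i _ => ?_
  simp only [pow_two, Finset.sum_mul_sum]
  rw [Finset.sum_comm]
  refine Finset.sum_congr rfl fun j _ => ?_
  rw [Finset.sum_comm]
  refine Finset.sum_congr rfl fun k _ => ?_
  have e2 : Mm (fun s i => a s [i]) k i = Mm (fun s i => a s [i]) i k := by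
    unfold Mm; exact Finset.sum_congr rfl fun s _ => mul_comm _ _
  rw [e2]
  have e3 : ∑ s, Mm (fun s i => a s [i]) i j * a s [j] *
      (Mm (fun s i => a s [i]) i k * a s [k]) =
      Mm (fun s i => a s [i]) i j * Mm (fun s i => a s [i]) i k * ∑ s, a s [j] * a s [k] := by
    rw [Finset.mul_sum]
    exact Finset.sum_congr rfl fun s _ => by ring
  rw [e3]
  show _ * Mm (fun s i => a s [i]) j k = _
  ring

/-- the tensor as a family indexed by all but the last index -/
noncomputable def Ml : (m : ℕ) → (α : Type) → [Fintype α] → (α → List (Fin n) → ℝ) →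
    Fin n → Fin n → ℝ
  | 0, α, _, a => Mm (fun (s : α) i => a s [i])
  | m + 1, α, _, a => Ml m (α × Fin n) (sls a)

/-- the trace of the cube of a matrix -/
noncomputable def tr3 (M : Fin n → Fin n → ℝ) : ℝ := ∑ i, ∑ j, ∑ k, M i j * M j k * M k i

theorem kap_ge : ∀ (L : List β) (b : β) (α : Type) [Fintype α] (a : α → List (Fin n) → ℝ),
    (b :: L).Nodup → 8 * tr3 (Ml L.length α a) ≤ kap (b :: L) a
  | [], b, α, _, a, h => by
    have := kap_cons b [] a h
    rw [kap_nil, Kk_nil] at this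
    show 8 * tr3 (Mm (fun (s : α) i => a s [i])) ≤ _
    unfold tr3
    linarith
  | c :: L, b, α, _, a, h => by
    have h1 := kap_cons b (c :: L) a h
    have h2 := kap_ge L c (α × Fin n) (sls a) (List.nodup_cons.1 h).2
    have h3 := Ex_Kk_nonneg (c :: L) a
    show 8 * tr3 (Ml L.length (α × Fin n) (sls a)) ≤ _
    linarith

theorem tr3_Mm_eq {γ : Type} [Fintype γ] (y : γ → Fin n → ℝ) :
    tr3 (Mm y) = ∑ i, ∑ s, (∑ j, Mm y i j * y s j) ^ 2 := by
  unfold tr3
  refine Finset.sum_congr rfl fun i _ => ?_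
  symm
  simp only [pow_two, Finset.sum_mul_sum]
  rw [Finset.sum_comm]
  refine Finset.sum_congr rfl fun j _ => ?_
  rw [Finset.sum_comm]
  refine Finset.sum_congr rfl fun k _ => ?_
  have e2 : Mm y k i = Mm y i k := by
    unfold Mm; exact Finset.sum_congr rfl fun s _ => mul_comm _ _
  rw [e2]
  have e3 : ∑ s, Mm y i j * y s j * (Mm y i k * y s k) =
      Mm y i j * Mm y i k * ∑ s, y s j * y s k := by
    rw [Finset.mul_sum]
    exact Finset.sum_congr rfl fun s _ => by ring
  rw [e3]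
  show _ * Mm y j k = _
  ring

theorem tr3_Mm_pos {γ : Type} [Fintype γ] (y : γ → Fin n → ℝ) (hy : ∃ s i, y s i ≠ 0) :
    0 < tr3 (Mm y) := by
  have h0 : 0 ≤ tr3 (Mm y) := by
    rw [tr3_Mm_eq]
    exact Finset.sum_nonneg fun i _ => Finset.sum_nonneg fun s _ => sq_nonneg _
  rcases h0.lt_or_eq with h | h
  · exact h
  exfalso
  obtain ⟨s0, i0, h0⟩ := hy
  rw [tr3_Mm_eq] at h
  have h1 : ∀ i s, ∑ j, Mm y i j * y s j = 0 := by
    intro i s
    have a1 := (Finset.sum_eq_zero_iff_of_nonneg (fun i _ => Finset.sum_nonneg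
      fun s _ => sq_nonneg _)).1 h.symm i (Finset.mem_univ i)
    have a2 := (Finset.sum_eq_zero_iff_of_nonneg (fun s _ => sq_nonneg _)).1 a1 s
      (Finset.mem_univ s)
    exact pow_eq_zero_iff (two_ne_zero) |>.1 a2
  have h2 : ∑ i, ∑ j, Mm y i j ^ 2 = 0 := by
    refine Finset.sum_eq_zero fun i _ => ?_
    have e : ∑ j, Mm y i j ^ 2 = ∑ s, y s i * ∑ j, Mm y i j * y s j := by
      simp only [Finset.mul_sum]
      rw [Finset.sum_comm]
      refine Finset.sum_congr rfl fun j _ => ?_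
      have : ∑ s, y s i * (Mm y i j * y s j) = Mm y i j * ∑ s, y s i * y s j := by
        rw [Finset.mul_sum]
        exact Finset.sum_congr rfl fun s _ => by ring
      rw [this, pow_two]
      rfl
    rw [e]
    exact Finset.sum_eq_zero fun s _ => by rw [h1, mul_zero]
  have h3 : Mm y i0 i0 = 0 := by
    have a1 := (Finset.sum_eq_zero_iff_of_nonneg (fun i _ => Finset.sum_nonneg
      fun s _ => sq_nonneg _)).1 h2 i0 (Finset.mem_univ i0)
    have a2 := (Finset.sum_eq_zero_iff_of_nonneg (fun s _ => sq_nonneg _)).1 a1 i0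
      (Finset.mem_univ i0)
    exact pow_eq_zero_iff (two_ne_zero) |>.1 a2
  have h4 : y s0 i0 * y s0 i0 = 0 := by
    unfold Mm at h3
    exact (Finset.sum_eq_zero_iff_of_nonneg (fun s _ => mul_self_nonneg _)).1 h3 s0
      (Finset.mem_univ s0)
  exact h0 (mul_self_eq_zero.1 h4)

theorem tr3_Mm_nonneg {γ : Type} [Fintype γ] (y : γ → Fin n → ℝ) : 0 ≤ tr3 (Mm y) := by
  rw [tr3_Mm_eq]
  exact Finset.sum_nonneg fun i _ => Finset.sum_nonneg fun s _ => sq_nonneg _

/-- explicit form of `Ml` -/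
theorem Ml_eq : ∀ (m : ℕ) (α : Type) [Fintype α] (a : α → List (Fin n) → ℝ),
    Ml m α a = Mm (fun (s : α × (Fin m → Fin n)) i => a s.1 (List.ofFn s.2 ++ [i]))
  | 0, α, _, a => by
    funext i j
    show Mm (fun (s : α) i => a s [i]) i j = _
    unfold Mm
    rw [Fintype.sum_prod_type]
    refine Finset.sum_congr rfl fun s _ => ?_
    simp
  | m + 1, α, _, a => by
    show Ml m (α × Fin n) (sls a) = _
    rw [Ml_eq m (α × Fin n) (sls a)]
    funext i j
    unfold Mm
    rw [Fintype.sum_prod_type, Fintype.sum_prod_type, Fintype.sum_prod_type]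
    refine Finset.sum_congr rfl fun s _ => ?_
    rw [← (Fin.consEquiv (fun _ : Fin (m + 1) => Fin n)).sum_comp, Fintype.sum_prod_type]
    refine Finset.sum_congr rfl fun k _ => Finset.sum_congr rfl fun J _ => ?_
    simp [sls, sl, Fin.consEquiv, List.ofFn_succ]

/-- expansion of a form into monomials -/
theorem F_ofFn : ∀ (m : ℕ) (b : Fin m → β) (a : List (Fin n) → ℝ),
    F (List.ofFn b) a = ∑ J : Fin m → Fin n, C (a (List.ofFn J)) * ∏ k, X (b k, J k)
  | 0, b, a => by simp [F_nil]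
  | m + 1, b, a => by
    rw [List.ofFn_succ, F_cons, ← (Fin.consEquiv (fun _ : Fin (m + 1) => Fin n)).sum_comp,
      Fintype.sum_prod_type]
    refine Finset.sum_congr rfl fun i _ => ?_
    rw [F_ofFn m, Finset.mul_sum]
    refine Finset.sum_congr rfl fun J _ => ?_
    simp only [Fin.consEquiv, Equiv.coe_fn_mk, Fin.prod_univ_succ, Fin.cons_zero, Fin.cons_succ,
      List.ofFn_succ, sl]
    ring

end Pool.Agent.TH722.K6
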