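import Mathlib

/-!
# Moments of a quadratic form in Gaussian variables, by integration by parts
-/

set_option autoImplicit false
set_option linter.unusedSectionVars false

namespace Pool.Agent.TH722.K6

open Finset Matrix

variable {R : Type} [CommRing R] [Algebra ℝ R] (E : R →ₗ[ℝ] ℝ)
variable {ι : Type} [Fintype ι] [DecidableEq ι] (y : ι → R) (D : ι → Derivation ℝ R R)

/-- the quadratic form `∑ B_ij y_i y_j - tr B` -/
def qf (B : Matrix ι ι R) : R := (∑ i, ∑ j, B i j * y i * y j) - ∑ i, B i i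

theorem qf_ibp (h1 : ∀ i P, E (y i * P) = E (D i P))
    (h2 : ∀ i j, D i (y j) = if i = j then 1 else 0) (B : Matrix ι ι R)
    (hB : ∀ k i j, D k (B i j) = 0) (P : R) :
    E (qf y B * P) = E (∑ i, ∑ j, B i j * y j * D i P) := by
  have e : ∀ i j, E (B i j * y i * y j * P) =
      E (B i j * (if i = j then 1 else 0) * P) + E (B i j * y j * D i P) := by
    intro i j
    have : B i j * y i * y j * P = y i * (B i j * y j * P) := by ring
    rw [this, h1, Derivation.leibniz, Derivation.leibniz, hB, h2, ← map_add]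
    congr 1
    simp only [smul_eq_mul]; ring
  unfold qf
  rw [sub_mul, map_sub, Finset.sum_mul, map_sum]
  simp only [Finset.sum_mul, map_sum, e, Finset.sum_add_distrib]
  have e2 : ∀ i, ∑ j, E (B i j * (if i = j then 1 else 0) * P) = E (B i i * P) := by
    intro i
    rw [Finset.sum_eq_single i]
    · simp
    · intro j _ hj; rw [if_neg (Ne.symm hj)]; simp
    · intro h; exact absurd (Finset.mem_univ i) h
  simp only [e2]
  ring

theorem D_qf (h2 : ∀ i j, D i (y j) = if i = j then 1 else 0) (A : Matrix ι ι R)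
    (hA : ∀ k i j, D k (A i j) = 0) (hs : A.IsSymm) (k : ι) :
    D k (qf y A) = 2 * ∑ j, A k j * y j := by
  unfold qf
  rw [map_sub, map_sum, map_sum]
  have e0 : ∑ i, D k (A i i) = 0 := Finset.sum_eq_zero fun i _ => hA _ _ _
  rw [e0, sub_zero]
  have e : ∀ i, D k (∑ j, A i j * y i * y j) =
      (if k = i then ∑ j, A i j * y j else 0) + A i k * y i := by
    intro i
    rw [map_sum]
    have e1 : ∀ j, D k (A i j * y i * y j) = (if k = i then A i j * y j else 0) +
        (if k = j then A i j * y i else 0) := by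
      intro j
      rw [Derivation.leibniz, Derivation.leibniz, hA, h2, h2]
      simp only [smul_eq_mul]
      split_ifs <;> ring
    simp only [e1, Finset.sum_add_distrib, Finset.sum_ite_eq, Finset.mem_univ, if_true]
    congr 1
    split_ifs
    · rfl
    · simp
  simp only [e, Finset.sum_add_distrib, Finset.sum_ite_eq, Finset.mem_univ, if_true]
  have e3 : ∑ i, A i k * y i = ∑ j, A k j * y j :=
    Finset.sum_congr rfl fun i _ => by rw [hs.apply]
  rw [e3]; ring

theorem free_pow (A : Matrix ι ι R) (hA : ∀ k i j, D k (A i j) = 0) (m : ℕ) :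
    ∀ k i j, D k ((A ^ m) i j) = 0 := by
  induction m with
  | zero =>
    intro k i j
    rw [pow_zero, Matrix.one_apply]
    split_ifs
    · simp
    · simp
  | succ m ih =>
    intro k i j
    rw [pow_succ, Matrix.mul_apply, map_sum]
    refine Finset.sum_eq_zero fun l _ => ?_
    rw [Derivation.leibniz, hA, ih, smul_zero, smul_zero, add_zero]

theorem free_trace (A : Matrix ι ι R) (hA : ∀ k i j, D k (A i j) = 0) (k : ι) :
    D k (A.trace) = 0 := by
  unfold Matrix.trace
  rw [map_sum]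
  exact Finset.sum_eq_zero fun i _ => hA _ _ _

theorem qf_mul_vec (B A : Matrix ι ι R) (hB : B.IsSymm) :
    ∑ i, ∑ j, B i j * y j * ∑ k, A i k * y k = qf y (B * A) + (B * A).trace := by
  unfold qf Matrix.trace
  simp only [Matrix.diag_apply, sub_add_cancel]
  have e : ∀ i, ∑ j, B i j * y j * ∑ k, A i k * y k = ∑ j, ∑ k, B j i * A i k * y j * y k := by
    intro i
    refine Finset.sum_congr rfl fun j _ => ?_
    rw [Finset.mul_sum]
    refine Finset.sum_congr rfl fun k _ => ?_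
    rw [hB.apply]; ring
  simp only [e]
  rw [Finset.sum_comm]
  refine Finset.sum_congr rfl fun j _ => ?_
  rw [Finset.sum_comm]
  refine Finset.sum_congr rfl fun k _ => ?_
  rw [Matrix.mul_apply, Finset.sum_mul, Finset.sum_mul]

theorem quad_moments (h1 : ∀ i P, E (y i * P) = E (D i P))
    (h2 : ∀ i j, D i (y j) = if i = j then 1 else 0) (A : Matrix ι ι R)
    (hA : ∀ k i j, D k (A i j) = 0) (hs : A.IsSymm) :
    E (qf y A ^ 2) = 2 * E ((A ^ 2).trace) ∧
    E (qf y A ^ 3) = 8 * E ((A ^ 3).trace) ∧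
    E (qf y A ^ 4) = 48 * E ((A ^ 4).trace) + 12 * E ((A ^ 2).trace ^ 2) ∧
    E (qf y A ^ 6) = 3840 * E ((A ^ 6).trace) + 1440 * E ((A ^ 2).trace * (A ^ 4).trace)
      + 640 * E ((A ^ 3).trace ^ 2) + 120 * E ((A ^ 2).trace ^ 3) := by
  set Q : R := qf y A with hQ
  have hp : ∀ m, (A ^ m).IsSymm := fun m => hs.pow m
  have fr : ∀ m k, D k ((A ^ m).trace) = 0 := fun m k =>
    free_trace D (A ^ m) (free_pow D A hA m) k
  -- recursion
  have r0 : ∀ (m : ℕ) (w : R), (∀ k, D k w = 0) → E (qf y (A ^ m) * w) = 0 := by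
    intro m w hw
    rw [qf_ibp E y D h1 h2 _ (free_pow D A hA m)]
    simp [hw]
  have r1 : ∀ (m k : ℕ) (w : R), (∀ k, D k w = 0) → E (qf y (A ^ m) * (Q ^ (k + 1) * w)) =
      2 * ((k : ℝ) + 1) * (E (qf y (A ^ (m + 1)) * (Q ^ k * w)) + E (Q ^ k * ((A ^ (m + 1)).trace * w))) := by
    intro m k w hw
    rw [qf_ibp E y D h1 h2 _ (free_pow D A hA m)]
    have e : ∀ i, D i (Q ^ (k + 1) * w) = ((k + 1 : ℕ) : R) * 2 * (∑ j, A i j * y j) * (Q ^ k * w) := by
      intro i
      rw [Derivation.leibniz, hw, Derivation.leibniz_pow, hQ, D_qf y D h2 A hA hs i]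
      simp only [smul_eq_mul, nsmul_eq_mul, Nat.add_sub_cancel, mul_zero, zero_add]
      ring
    have e2 : ∑ i, ∑ j, (A ^ m) i j * y j * D i (Q ^ (k + 1) * w) =
        ((k + 1 : ℕ) : R) * 2 * ((∑ i, ∑ j, (A ^ m) i j * y j * ∑ j, A i j * y j) * (Q ^ k * w)) := by
      rw [Finset.sum_mul, Finset.mul_sum]
      refine Finset.sum_congr rfl fun i _ => ?_
      rw [Finset.sum_mul, Finset.mul_sum]
      refine Finset.sum_congr rfl fun j _ => ?_
      rw [e]; ring
    rw [e2, qf_mul_vec y _ A (hp m), ← pow_succ]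
    have e3 : ((k + 1 : ℕ) : R) * 2 * ((qf y (A ^ (m + 1)) + (A ^ (m + 1)).trace) * (Q ^ k * w)) =
        ((2 * (k + 1) : ℕ) : ℝ) • (qf y (A ^ (m + 1)) * (Q ^ k * w) +
          Q ^ k * ((A ^ (m + 1)).trace * w)) := by
      rw [Nat.cast_smul_eq_nsmul, nsmul_eq_mul]
      push_cast; ring
    rw [e3, map_smul, map_add, smul_eq_mul]
    push_cast; ring
  have q0 : ∀ (k : ℕ) (w : R), E (Q ^ (k + 1) * w) = E (qf y (A ^ 1) * (Q ^ k * w)) := by
    intro k w
    rw [pow_one]
    congr 1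
    rw [← hQ]; ring
  have hw1 : ∀ k, D k (1 : R) = 0 := fun k => by simp
  have hw : ∀ (m : ℕ) (w : R), (∀ k, D k w = 0) → ∀ k, D k ((A ^ m).trace * w) = 0 := by
    intro m w hw k
    rw [Derivation.leibniz, hw, fr, smul_zero, smul_zero, add_zero]
  have E1 : ∀ w, (∀ k, D k w = 0) → E (Q ^ 1 * w) = 0 := by
    intro w h
    rw [q0, pow_zero, one_mul, r0 1 w h]
  have E2 : ∀ w, (∀ k, D k w = 0) → E (Q ^ 2 * w) = 2 * E ((A ^ 2).trace * w) := by
    intro w h
    have a := r1 1 0 w h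
    have b := r0 2 w h
    rw [q0, a]
    simp only [pow_zero, one_mul, Nat.reduceAdd, b]
    push_cast; ring
  have E3 : ∀ w, (∀ k, D k w = 0) → E (Q ^ 3 * w) = 8 * E ((A ^ 3).trace * w) := by
    intro w h
    have a := r1 1 1 w h
    have b := r1 2 0 w h
    have c := r0 3 w h
    have d := E1 _ (hw 2 w h)
    rw [q0, a]
    simp only [pow_zero, one_mul, Nat.reduceAdd, zero_add] at b c d ⊢
    rw [b, c, d]
    push_cast; ring
  have E4 : ∀ w, (∀ k, D k w = 0) → E (Q ^ 4 * w) =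
      48 * E ((A ^ 4).trace * w) + 12 * E ((A ^ 2).trace * ((A ^ 2).trace * w)) := by
    intro w h
    have a := r1 1 2 w h
    have b := r1 2 1 w h
    have c := r1 3 0 w h
    have d := r0 4 w h
    have e := E1 _ (hw 3 w h)
    have f := E2 _ (hw 2 w h)
    rw [q0, a]
    simp only [pow_zero, one_mul, Nat.reduceAdd, zero_add] at b c d e f ⊢
    rw [b, c, d, e, f]
    push_cast; ring
  have g6 : E (Q ^ 6 * 1) = 3840 * E ((A ^ 6).trace * 1)
      + 960 * E ((A ^ 2).trace * ((A ^ 4).trace * 1))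
      + 640 * E ((A ^ 3).trace * ((A ^ 3).trace * 1))
      + 480 * E ((A ^ 4).trace * ((A ^ 2).trace * 1))
      + 120 * E ((A ^ 2).trace * ((A ^ 2).trace * ((A ^ 2).trace * 1))) := by
    have a := r1 1 4 1 hw1
    have b := r1 2 3 1 hw1
    have c := r1 3 2 1 hw1
    have d := r1 4 1 1 hw1
    have e := r1 5 0 1 hw1
    have f := r0 6 1 hw1
    have g := E1 _ (hw 5 1 hw1)
    have h := E2 _ (hw 4 1 hw1)
    have i := E3 _ (hw 3 1 hw1)
    have j := E4 _ (hw 2 1 hw1)
    rw [q0, a]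
    simp only [pow_zero, one_mul, Nat.reduceAdd, zero_add] at b c d e f g h i j ⊢
    rw [b, c, d, e, f, g, h, i, j]
    push_cast; ring
  have g2 := E2 1 hw1
  have g3 := E3 1 hw1
  have g4 := E4 1 hw1
  simp only [mul_one] at g2 g3 g4 g6
  refine ⟨g2, g3, ?_, ?_⟩
  · rw [g4, pow_two ((A ^ 2).trace)]
  · have x1 : E ((A ^ 4).trace * (A ^ 2).trace) = E ((A ^ 2).trace * (A ^ 4).trace) := by
      rw [mul_comm]
    have x2 : (A ^ 2).trace ^ 3 = (A ^ 2).trace * ((A ^ 2).trace * (A ^ 2).trace) := by ring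
    rw [g6, x1, x2, pow_two ((A ^ 3).trace)]
    ring

end Pool.Agent.TH722.K6
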