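import Pool.Agent.TH722.K6.Main
import Pool.Agent.TH722.K6.Quad

/-!
# Sixth cumulant of a second chaos with multilinear coefficients
-/

set_option autoImplicit false
set_option linter.unusedSectionVars false

namespace Pool.Agent.TH722.K6

open Finset MvPolynomial

section sq
variable {R : Type} [CommRing R] {ι : Type} [Fintype ι] [DecidableEq ι]

theorem trace_mul_transpose_self' (N : Matrix ι ι R) :
    (N * N.transpose).trace = ∑ i, ∑ j, N i j ^ 2 := by
  unfold Matrix.trace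
  refine Finset.sum_congr rfl fun i _ => ?_
  rw [Matrix.diag_apply, Matrix.mul_apply]
  exact Finset.sum_congr rfl fun j _ => by rw [Matrix.transpose_apply, pow_two]

theorem trace_sq_symm (N : Matrix ι ι R) (h : N.IsSymm) :
    (N * N).trace = ∑ i, ∑ j, N i j ^ 2 := by
  have := trace_mul_transpose_self' N
  rwa [h] at this

theorem trace_mul_symm (N W : Matrix ι ι R) (h : W.IsSymm) :
    (N * W).trace = ∑ i, ∑ j, N i j * W i j := by
  unfold Matrix.trace
  refine Finset.sum_congr rfl fun i _ => ?_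
  rw [Matrix.diag_apply, Matrix.mul_apply]
  exact Finset.sum_congr rfl fun j _ => by rw [h.apply]

theorem trace_AAHH (A H : Matrix ι ι R) (hA : A.IsSymm) (hH : H.IsSymm) :
    (A * A * (H * H)).trace = ∑ i, ∑ j, (A * H) i j ^ 2 := by
  rw [← trace_mul_transpose_self', Matrix.transpose_mul, hA, hH]
  rw [Matrix.trace_mul_comm (A * A) (H * H)]
  have : A * H * (H * A) = A * (H * H * A) := by simp only [Matrix.mul_assoc]
  rw [this, Matrix.trace_mul_comm A]
  simp only [Matrix.mul_assoc]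

end sq

variable {β : Type} [Fintype β] [DecidableEq β] {n : ℕ}

/-- the matrix of forms -/
noncomputable def FM (L : List β) (a : Fin n × Fin n → List (Fin n) → ℝ) :
    Matrix (Fin n) (Fin n) (MvPolynomial (β × Fin n) ℝ) := fun i j => F L (a (i, j))

variable (L : List β) (a : Fin n × Fin n → List (Fin n) → ℝ)

theorem FM_symm (ha : ∀ i j, a (i, j) = a (j, i)) : (FM L a).IsSymm := by
  refine Matrix.IsSymm.ext fun i j => ?_
  show F L (a (j, i)) = F L (a (i, j))
  rw [ha]

theorem trace_FM_sq (ha : ∀ i j, a (i, j) = a (j, i)) : ((FM L a) ^ 2).trace = V L a := by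
  rw [pow_two, trace_sq_symm _ (FM_symm L a ha)]
  unfold V
  rw [Fintype.sum_prod_type]
  rfl

theorem trace_four (ha : ∀ i j, a (i, j) = a (j, i)) :
    ((FM L a) ^ 4).trace = ∑ i, ∑ j, (FM L a * FM L a) i j ^ 2 := by
  have : (FM L a) ^ 4 = (FM L a * FM L a) * (FM L a * FM L a) := by
    simp only [pow_succ, pow_zero, one_mul, Matrix.mul_assoc]
  rw [this, trace_sq_symm]
  have := (FM_symm L a ha).pow 2
  rwa [pow_two] at this

theorem Hs_gen (b : β) (w : Fin n → MvPolynomial (β × Fin n) ℝ)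
    (A H S W : Matrix (Fin n) (Fin n) (MvPolynomial (β × Fin n) ℝ))
    (hS : ∀ i j, Hs b w (S i j) = 2 * W i j)
    (hW : ∑ i, ∑ j, S i j * W i j = ∑ i, ∑ j, (A * H) i j ^ 2) :
    0 ≤ Ex (Hs b w (∑ i, ∑ j, S i j ^ 2)) := by
  have e1 : Hs b w (∑ i, ∑ j, S i j ^ 2) =
      ∑ i, ∑ j, ((Dw b w (S i j)) ^ 2 + (Dw b w (S i j)) ^ 2) +
      ∑ i, ∑ j, (2 * (A * H) i j) ^ 2 := by
    have e2 : ∀ i j, Hs b w (S i j ^ 2) =
        ((Dw b w (S i j)) ^ 2 + (Dw b w (S i j)) ^ 2) + 4 * (S i j * W i j) := by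
      intro i j
      rw [pow_two, Hs_mul, hS]
      ring
    simp only [Hs_sum, e2, Finset.sum_add_distrib]
    congr 1
    simp only [← Finset.mul_sum, mul_pow]
    rw [hW]
    ring
  rw [e1, map_add, map_sum, map_sum]
  refine add_nonneg (Finset.sum_nonneg fun s _ => ?_) (Finset.sum_nonneg fun i _ => ?_)
  · rw [map_sum]
    refine Finset.sum_nonneg fun t _ => ?_
    rw [map_add]
    exact add_nonneg (Ex_sq_nonneg _) (Ex_sq_nonneg _)
  · rw [map_sum]
    exact Finset.sum_nonneg fun j _ => Ex_sq_nonneg _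

theorem Cvx_four (b : β) (hL : L.Nodup) (ha : ∀ i j, a (i, j) = a (j, i)) :
    Cvx b ((FM L a) ^ 4).trace := by
  intro w
  rw [trace_four L a ha]
  have sA : (FM L a).IsSymm := FM_symm L a ha
  have hAz : ∀ i j, Hs b w (FM L a i j) = 0 := fun i j => Hs_F b L _ hL w
  generalize FM L a = A at sA hAz ⊢
  obtain ⟨H, hH⟩ : ∃ H : Matrix (Fin n) (Fin n) (MvPolynomial (β × Fin n) ℝ),
      ∀ i j, H i j = Dw b w (A i j) := ⟨fun i j => Dw b w (A i j), fun _ _ => rfl⟩
  have sH : H.IsSymm := Matrix.IsSymm.ext fun i j => by rw [hH, hH, sA.apply]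
  have sHH : (H * H).IsSymm := by
    have := sH.pow 2
    rwa [pow_two] at this
  refine Hs_gen b w A H (A * A) (H * H) ?_ ?_
  · intro i j
    rw [Matrix.mul_apply, Matrix.mul_apply, Hs_sum, Finset.mul_sum]
    refine Finset.sum_congr rfl fun k _ => ?_
    rw [Hs_mul, hAz, hAz, hH, hH]
    ring
  · rw [← trace_mul_symm _ _ sHH, trace_AAHH A H sA sH]

theorem Ex_six_nonneg (ha : ∀ i j, a (i, j) = a (j, i)) : 0 ≤ Ex ((FM L a) ^ 6).trace := by
  have : (FM L a) ^ 6 = (FM L a) ^ 3 * (FM L a) ^ 3 := by rw [← pow_add]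
  rw [this, trace_sq_symm _ ((FM_symm L a ha).pow 3), map_sum]
  refine Finset.sum_nonneg fun i _ => ?_
  rw [map_sum]
  exact Finset.sum_nonneg fun j _ => Ex_sq_nonneg _

theorem Ex_var_nonneg (P : MvPolynomial (β × Fin n) ℝ) : Ex P ^ 2 ≤ Ex (P ^ 2) := by
  have h := Ex_sq_nonneg (P - C (Ex P))
  have e : (P - C (Ex P)) ^ 2 = P ^ 2 - C (2 * Ex P) * P + C (Ex P ^ 2) := by
    simp only [map_mul, map_pow, map_ofNat]; ring
  rw [e, map_add, map_sub, Ex_C_mul, Ex_C] at h
  nlinarith [h]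

/-- the quadratic form in the block `b` with coefficients the matrix of forms -/
noncomputable def QF (b : β) : MvPolynomial (β × Fin n) ℝ :=
  qf (fun i => X (b, i)) (FM L a)

theorem kappa_QF (b : β) (hb : (b :: L).Nodup) (ha : ∀ i j, a (i, j) = a (j, i)) :
    120 * kap L a ≤ Ex (QF L a b ^ 6) - 15 * Ex (QF L a b ^ 2) * Ex (QF L a b ^ 4)
      - 10 * Ex (QF L a b ^ 3) ^ 2 + 30 * Ex (QF L a b ^ 2) ^ 3 := by
  rw [List.nodup_cons] at hb
  obtain ⟨m2, m3, m4, m6⟩ := quad_moments (Ex (ι := β × Fin n)) (fun i => X (b, i))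
    (fun i => pderiv (b, i)) (fun i P => stein P (b, i))
    (fun i j => by
      rw [pderiv_X]
      by_cases h : i = j
      · subst h; simp
      · rw [if_neg h, Pi.single_eq_of_ne]
        intro e; exact h (Prod.mk.inj e).2.symm)
    (FM L a) (fun k i j => pd_free b k L _ hb.1) (FM_symm L a ha)
  have c4 := corr L (Fin n × Fin n) a ((FM L a) ^ 4).trace hb.2
    (fun b' _ => Cvx_four L a b' hb.2 ha)
  have c6 := Ex_six_nonneg L a ha
  have c3 := Ex_var_nonneg ((FM L a) ^ 3).trace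
  have t2 := trace_FM_sq L a ha
  unfold QF kap
  rw [m2, m3, m4, m6, t2]
  nlinarith [c4, c6, c3]

end Pool.Agent.TH722.K6
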